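import Pool.Agent.Helper93.T53.StD

/-!
# Project T53: module ExA (the functions `V, W, U` of a solution of the relations)

Model: `Pool/Agent/Helper66/TH3/M_ExA.lean`. Here all twelve classes of integral matrices with determinant prime to
`3` are treated directly: every such matrix has exactly one class and one point of the plane.
-/

set_option autoImplicit false

namespace Pool.Agent.Helper31.T53

open Pool.Agent.Helper78.W3 (tr S3Trm)
open Pool.Agent.Helper93.T53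

private theorem ndm {a b : ℤ} (ha : ¬ (3 : ℤ) ∣ a) (hb : ¬ (3 : ℤ) ∣ b) : ¬ (3 : ℤ) ∣ a * b := by
  intro h
  rcases (Int.prime_ofNat_iff.2 (by norm_num : Nat.Prime 3)).dvd_or_dvd h with h | h
  · exact ha h
  · exact hb h

private theorem cop {r : ℕ} {a : ℤ} (h : ¬ (3 : ℤ) ∣ a) : IsUnit ((a : ℤ) : ZMod (3 ^ r)) := by
  have h1 : IsCoprime a 3 := by
    have := (Int.prime_ofNat_iff.2 (by norm_num : Nat.Prime 3)).coprime_iff_not_dvd.2 h
    exact this.symm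
  have h2 : IsCoprime a ((3 ^ r : ℕ) : ℤ) := by
    push_cast
    exact h1.pow_right
  exact (ZMod.coe_int_isUnit_iff_isCoprime a (3 ^ r)).2 h2.symm

private theorem den {r : ℕ} {a c : ℤ} (x : ZMod (3 ^ r)) (h : ¬ (3 : ℤ) ∣ a) :
    IsUnit ((a : ZMod (3 ^ r)) + 9 * c * x) := by
  have : NeZero (3 ^ r) := ⟨pow_ne_zero _ (by norm_num)⟩
  have : (a : ZMod (3 ^ r)) + 9 * c * x = ((a + 9 * c * (x.val : ℤ) : ℤ) : ZMod (3 ^ r)) := by
    push_cast
    rw [ZMod.natCast_zmod_val]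
  rw [this]
  apply cop
  intro h3
  exact h ((dvd_add_left (⟨3 * c * (x.val : ℤ), by ring⟩ : (3 : ℤ) ∣ 9 * c * (x.val : ℤ))).1 h3)

private theorem res {a b c d : ℤ} (h : ¬ (3 : ℤ) ∣ a * d - 3 * (b * c)) :
    ¬ (3 : ℤ) ∣ a ∧ ¬ (3 : ℤ) ∣ d := by
  constructor
  · rintro ⟨k, rfl⟩
    exact h ⟨k * d - b * c, by ring⟩
  · rintro ⟨k, rfl⟩
    exact h ⟨a * k - b * c, by ring⟩

/-- `(a 3b; 3c d)` has the coordinates `(x, y)` -/
private def Pt {r s : ℕ} (a b c d : ℤ) (x : ZMod (3 ^ r)) (y : ZMod (3 ^ s)) : Prop :=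
  ¬ (3 : ℤ) ∣ a ∧ ¬ (3 : ℤ) ∣ d ∧ (b : ZMod (3 ^ r)) = x * a ∧ (c : ZMod (3 ^ s)) = y * d

private theorem pt_mk (r s : ℕ) {a b c d : ℤ} (ha : ¬ (3 : ℤ) ∣ a) (hd : ¬ (3 : ℤ) ∣ d) :
    ∃ (x : ZMod (3 ^ r)) (y : ZMod (3 ^ s)), Pt a b c d x y := by
  refine ⟨(b : ZMod (3 ^ r)) * (a : ZMod (3 ^ r))⁻¹, (c : ZMod (3 ^ s)) * (d : ZMod (3 ^ s))⁻¹,
    ha, hd, ?_, ?_⟩
  · rw [mul_assoc, ZMod.inv_mul_of_unit _ (cop ha), mul_one]
  · rw [mul_assoc, ZMod.inv_mul_of_unit _ (cop hd), mul_one]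

private theorem pt_uniq {r s : ℕ} {a b c d : ℤ} {x x' : ZMod (3 ^ r)} {y y' : ZMod (3 ^ s)}
    (h : Pt a b c d x y) (h' : Pt a b c d x' y') : x = x' ∧ y = y' := by
  obtain ⟨h1, h2, h3, h4⟩ := h
  obtain ⟨-, -, h3', h4'⟩ := h'
  exact ⟨(cop h1).mul_right_cancel (h3.symm.trans h3'),
    (cop h2).mul_right_cancel (h4.symm.trans h4')⟩

private theorem pt_scale {r s : ℕ} {a b c d k A B C D : ℤ} {x : ZMod (3 ^ r)} {y : ZMod (3 ^ s)}
    (h : Pt a b c d x y) (hk : ¬ (3 : ℤ) ∣ k) (hA : A = k * a) (hB : B = k * b) (hC : C = k * c)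
    (hD : D = k * d) : Pt A B C D x y := by
  obtain ⟨h1, h2, h3, h4⟩ := h
  subst hA hB hC hD
  refine ⟨ndm hk h1, ndm hk h2, ?_, ?_⟩
  · push_cast
    rw [h3]
    ring
  · push_cast
    rw [h4]
    ring

private theorem pt_mul {r s : ℕ} {a b c d : ℤ} {x : ZMod (3 ^ r)} {y : ZMod (3 ^ s)}
    (h : Pt a b c d x y) {α β γ δ : ℤ} (hα : ¬ (3 : ℤ) ∣ α) (hδ : ¬ (3 : ℤ) ∣ δ) :
    Pt (a * α + 9 * b * γ) (a * β + b * δ) (c * α + d * γ) (9 * c * β + d * δ)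
      (((β : ZMod (3 ^ r)) + (δ : ZMod (3 ^ r)) * x) *
        ((α : ZMod (3 ^ r)) + 9 * (γ : ZMod (3 ^ r)) * x)⁻¹)
      (((γ : ZMod (3 ^ s)) + (α : ZMod (3 ^ s)) * y) *
        ((δ : ZMod (3 ^ s)) + 9 * (β : ZMod (3 ^ s)) * y)⁻¹) := by
  obtain ⟨h1, h2, h3, h4⟩ := h
  have u1 := ZMod.inv_mul_of_unit _ (den (r := r) (a := α) (c := γ) x hα)
  have u2 := ZMod.inv_mul_of_unit _ (den (r := s) (a := δ) (c := β) y hδ)
  refine ⟨?_, ?_, ?_, ?_⟩
  · intro h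
    exact ndm h1 hα ((dvd_add_left (⟨3 * b * γ, by ring⟩ : (3 : ℤ) ∣ 9 * b * γ)).1 h)
  · intro h
    exact ndm h2 hδ ((dvd_add_right (⟨3 * c * β, by ring⟩ : (3 : ℤ) ∣ 9 * c * β)).1 h)
  · push_cast
    rw [h3]
    linear_combination (-((a : ZMod (3 ^ r)) * ((β : ZMod (3 ^ r)) + δ * x))) * u1
  · push_cast
    rw [h4]
    linear_combination (-((d : ZMod (3 ^ s)) * ((γ : ZMod (3 ^ s)) + α * y))) * u2

private theorem pt_left {r s : ℕ} {a b c d : ℤ} {x : ZMod (3 ^ r)} {y : ZMod (3 ^ s)}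
    (h : Pt a b c d x y) {α β γ δ A B C D : ℤ} (hα : ¬ (3 : ℤ) ∣ α) (hδ : ¬ (3 : ℤ) ∣ δ)
    (hA : A = α * a + 3 ^ r * β * (9 * c)) (hB : B = α * b + 3 ^ r * β * d)
    (hC : C = 3 ^ s * γ * a + δ * c) (hD : D = 3 ^ s * γ * (9 * b) + δ * d) : Pt A B C D x y := by
  obtain ⟨h1, h2, h3, h4⟩ := h
  subst hA hB hC hD
  have z1 : ((3 : ℤ) ^ r : ZMod (3 ^ r)) = 0 := by
    have := ZMod.natCast_self (3 ^ r)
    push_cast at this ⊢
    exact this
  have z2 : ((3 : ℤ) ^ s : ZMod (3 ^ s)) = 0 := by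
    have := ZMod.natCast_self (3 ^ s)
    push_cast at this ⊢
    exact this
  refine ⟨?_, ?_, ?_, ?_⟩
  · intro h
    exact ndm hα h1 ((dvd_add_left
      (⟨3 ^ r * β * (3 * c), by ring⟩ : (3 : ℤ) ∣ 3 ^ r * β * (9 * c))).1 h)
  · intro h
    exact ndm hδ h2 ((dvd_add_right
      (⟨3 ^ s * γ * (3 * b), by ring⟩ : (3 : ℤ) ∣ 3 ^ s * γ * (9 * b))).1 h)
  · push_cast at z1 ⊢
    rw [z1, h3]
    ring
  · push_cast at z2 ⊢
    rw [z2, h4]
    ring

private theorem pt_unscale {r s : ℕ} {a b c d k : ℤ} {x : ZMod (3 ^ r)} {y : ZMod (3 ^ s)}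
    (hk : ¬ (3 : ℤ) ∣ k) (h : Pt (k * a) (k * b) (k * c) (k * d) x y) : Pt a b c d x y := by
  obtain ⟨h1, h2, h3, h4⟩ := h
  refine ⟨fun h => h1 (Dvd.dvd.mul_left h k), fun h => h2 (Dvd.dvd.mul_left h k), ?_, ?_⟩
  · apply (cop (r := r) hk).mul_left_cancel
    push_cast at h3
    rw [h3]
    ring
  · apply (cop (r := s) hk).mul_left_cancel
    push_cast at h4
    rw [h4]
    ring

/-! ### the classes -/

private def tp : Fin 12 → ℤ := ![1, 5, 0, 1, 5, 5, 1, 15, 10, 3, 2, 7]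
private def tq : Fin 12 → ℤ := ![-1, -2, 1, 0, -3, -1, 1, -8, -1, -1, -1, -3]
private def tu : Fin 12 → ℤ := ![0, -10, -5, 0, 10, 5, 0, 10, 5, -5, 5, 5]
private def tv : Fin 12 → ℤ := ![1, 5, 0, 1, -5, 0, 1, -5, 0, 2, -2, -2]
private def zp : Fin 12 → ZMod 3 := ![1, 2, 0, 1, 2, 2, 1, 0, 1, 0, 2, 1]
private def zq : Fin 12 → ZMod 3 := ![2, 1, 1, 0, 0, 2, 1, 1, 2, 2, 2, 0]
private def zu : Fin 12 → ZMod 3 := ![0, 2, 1, 0, 1, 2, 0, 1, 2, 1, 2, 2]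
private def zv : Fin 12 → ZMod 3 := ![1, 2, 0, 1, 1, 0, 1, 1, 0, 2, 1, 1]

private theorem hz : ∀ i : Fin 12, ((tp i : ℤ) : ZMod 3) = zp i ∧ ((tq i : ℤ) : ZMod 3) = zq i ∧
    ((tu i : ℤ) : ZMod 3) = zu i ∧ ((tv i : ℤ) : ZMod 3) = zv i := by
  decide

private theorem hdet : ∀ i : Fin 12, ¬ (3 : ℤ) ∣ tp i * tv i - tq i * tu i := by
  decide

private theorem tinj : ∀ i j : Fin 12, (3 : ℤ) ∣ tp i * tq j - tq i * tp j →
    (3 : ℤ) ∣ tu i * tv j - tv i * tu j → i = j := by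
  decide

private theorem clsZ : ∀ a b c d : ZMod 3, a * d - b * c ≠ 0 →
    ∃ i : Fin 12, b * zp i - a * zq i = 0 ∧ c * zv i - d * zu i = 0 := by
  decide

private def Cl {r s : ℕ} (a b c d : ℤ) (i : Fin 12) (x : ZMod (3 ^ r)) (y : ZMod (3 ^ s)) : Prop :=
  ∃ b' c' : ℤ, b * tp i - a * tq i = 3 * b' ∧ c * tv i - d * tu i = 3 * c' ∧
    Pt (a * tv i - b * tu i) b' c' (d * tp i - c * tq i) x y

private theorem p3 {a b : ℤ} (h : (3 : ℤ) ∣ a * b) (hb : ¬ (3 : ℤ) ∣ b) : (3 : ℤ) ∣ a := by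
  rcases (Int.prime_ofNat_iff.2 (by norm_num : Nat.Prime 3)).dvd_or_dvd h with h | h
  · exact h
  · exact absurd h hb

private theorem cl_uniq {r s : ℕ} {a b c d : ℤ} {i j : Fin 12} {x x' : ZMod (3 ^ r)}
    {y y' : ZMod (3 ^ s)} (h : Cl a b c d i x y) (h' : Cl a b c d j x' y') :
    i = j ∧ x = x' ∧ y = y' := by
  obtain ⟨b', c', e1, e2, hp⟩ := h
  obtain ⟨b'', c'', e1', e2', hp'⟩ := h'
  have X : (3 : ℤ) ∣ tp i * tq j - tq i * tp j := by
    by_contra hX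
    have ha := p3 (⟨b' * tp j - b'' * tp i, by linear_combination tp j * e1 - tp i * e1'⟩ :
      (3 : ℤ) ∣ a * (tp i * tq j - tq i * tp j)) hX
    have hb := p3 (⟨b' * tq j - b'' * tq i, by linear_combination tq j * e1 - tq i * e1'⟩ :
      (3 : ℤ) ∣ b * (tp i * tq j - tq i * tp j)) hX
    exact hp.1 (dvd_sub (Dvd.dvd.mul_right ha _) (Dvd.dvd.mul_right hb _))
  have Y : (3 : ℤ) ∣ tu i * tv j - tv i * tu j := by
    by_contra hY
    have hc := p3 (⟨c'' * tu i - c' * tu j, by linear_combination tu i * e2' - tu j * e2⟩ :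
      (3 : ℤ) ∣ c * (tu i * tv j - tv i * tu j)) hY
    have hd := p3 (⟨c'' * tv i - c' * tv j, by linear_combination tv i * e2' - tv j * e2⟩ :
      (3 : ℤ) ∣ d * (tu i * tv j - tv i * tu j)) hY
    exact hp.2.1 (dvd_sub (Dvd.dvd.mul_right hd _) (Dvd.dvd.mul_right hc _))
  obtain rfl : i = j := tinj i j X Y
  obtain rfl : b' = b'' := by omega
  obtain rfl : c' = c'' := by omega
  obtain ⟨rfl, rfl⟩ := pt_uniq hp hp'
  exact ⟨rfl, rfl, rfl⟩

private theorem e3d : ∀ z : ℤ, ((z : ℤ) : ZMod 3) = 0 → (3 : ℤ) ∣ z := fun z hz =>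
  (ZMod.intCast_zmod_eq_zero_iff_dvd z 3).1 hz

private theorem ex_cl (r s : ℕ) {a b c d : ℤ} (h : ¬ (3 : ℤ) ∣ a * d - b * c) :
    ∃ (i : Fin 12) (x : ZMod (3 ^ r)) (y : ZMod (3 ^ s)), Cl a b c d i x y := by
  obtain ⟨i, h1, h2⟩ := clsZ a b c d (by
    intro h1
    apply h
    apply e3d
    push_cast
    exact h1)
  obtain ⟨z1, z2, z3, z4⟩ := hz i
  obtain ⟨b', e1⟩ : (3 : ℤ) ∣ b * tp i - a * tq i := e3d _ (by push_cast; rw [z1, z2]; exact h1)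
  obtain ⟨c', e2⟩ : (3 : ℤ) ∣ c * tv i - d * tu i := e3d _ (by push_cast; rw [z3, z4]; exact h2)
  have hr := res (a := a * tv i - b * tu i) (b := b') (c := 3 * c') (d := d * tp i - c * tq i) (by
    have e : (a * tv i - b * tu i) * (d * tp i - c * tq i) - 3 * (b' * (3 * c')) =
        (a * d - b * c) * (tp i * tv i - tq i * tu i) := by
      rw [← e2]
      linear_combination (c * tv i - d * tu i) * e1
    rw [e]
    exact ndm h (hdet i))
  obtain ⟨x, y, hp⟩ := pt_mk r s (b := b') (c := c') hr.1 hr.2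
  exact ⟨i, x, y, b', c', e1, e2, hp⟩

private theorem cl_scale {r s : ℕ} {a b c d k A B C D : ℤ} {i : Fin 12} {x : ZMod (3 ^ r)}
    {y : ZMod (3 ^ s)} (h : Cl a b c d i x y) (hk : ¬ (3 : ℤ) ∣ k) (hA : A = k * a)
    (hB : B = k * b) (hC : C = k * c) (hD : D = k * d) : Cl A B C D i x y := by
  subst hA hB hC hD
  obtain ⟨b', c', e1, e2, hp⟩ := h
  exact ⟨k * b', k * c', by linear_combination k * e1, by linear_combination k * e2,
    pt_scale hp hk (by ring) rfl rfl (by ring)⟩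

private theorem cl_left {r s : ℕ} {a b c d α β γ δ A B C D : ℤ} {i : Fin 12} {x : ZMod (3 ^ r)}
    {y : ZMod (3 ^ s)} (h : Cl a b c d i x y) (hα : ¬ (3 : ℤ) ∣ α) (hδ : ¬ (3 : ℤ) ∣ δ)
    (hA : A = α * a + 3 ^ (r + 1) * β * c) (hB : B = α * b + 3 ^ (r + 1) * β * d)
    (hC : C = 3 ^ (s + 1) * γ * a + δ * c) (hD : D = 3 ^ (s + 1) * γ * b + δ * d) :
    Cl A B C D i x y := by
  subst hA hB hC hD
  obtain ⟨b', c', e1, e2, hp⟩ := h
  refine ⟨α * b' + 3 ^ r * β * (d * tp i - c * tq i),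
    3 ^ s * γ * (a * tv i - b * tu i) + δ * c', ?_, ?_, ?_⟩
  · rw [pow_succ]
    linear_combination α * e1
  · rw [pow_succ]
    linear_combination δ * e2
  · refine pt_left (β := β) (γ := γ) hp hα hδ ?_ rfl rfl ?_
    · rw [pow_succ]
      linear_combination (3 ^ r * 3 * β) * e2
    · rw [pow_succ]
      linear_combination (3 ^ s * 3 * γ) * e1

/-- `g` with `D0 g = (a 3b; 3c d) (t1 t2; t3 t4)` and `(t1 t2; t3 t4) adj ρ = m (n1 3n2; 3n3 n4)`. -/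
private theorem cl_gen {r s : ℕ} {a b c d : ℤ} {x : ZMod (3 ^ r)} {y : ZMod (3 ^ s)}
    (hp : Pt a b c d x y) {A B C D t1 t2 t3 t4 D0 : ℤ} (j : Fin 12) {m n1 n2 n3 n4 : ℤ}
    (h0 : ¬ (3 : ℤ) ∣ D0) (hm : ¬ (3 : ℤ) ∣ m) (hn1 : ¬ (3 : ℤ) ∣ n1) (hn4 : ¬ (3 : ℤ) ∣ n4)
    (hA : D0 * A = a * t1 + 3 * b * t3) (hB : D0 * B = a * t2 + 3 * b * t4)
    (hC : D0 * C = 3 * c * t1 + d * t3) (hD : D0 * D = 3 * c * t2 + d * t4)
    (r1 : t1 * tv j - t2 * tu j = m * n1) (r2 : t2 * tp j - t1 * tq j = m * (3 * n2))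
    (r3 : t3 * tv j - t4 * tu j = m * (3 * n3)) (r4 : t4 * tp j - t3 * tq j = m * n4) :
    Cl A B C D j (((n2 : ZMod (3 ^ r)) + (n4 : ZMod (3 ^ r)) * x) *
        ((n1 : ZMod (3 ^ r)) + 9 * (n3 : ZMod (3 ^ r)) * x)⁻¹)
      (((n3 : ZMod (3 ^ s)) + (n1 : ZMod (3 ^ s)) * y) *
        ((n4 : ZMod (3 ^ s)) + 9 * (n2 : ZMod (3 ^ s)) * y)⁻¹) := by
  have hN := pt_mul hp (α := n1) (β := n2) (γ := n3) (δ := n4) hn1 hn4
  have f1 : D0 * (B * tp j - A * tq j) = 3 * (m * (a * n2 + b * n4)) := by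
    linear_combination tp j * hB - tq j * hA + a * r2 + 3 * b * r4
  have f2 : D0 * (C * tv j - D * tu j) = 3 * (m * (c * n1 + d * n3)) := by
    linear_combination tv j * hC - tu j * hD + 3 * c * r1 + d * r3
  have f3 : D0 * (A * tv j - B * tu j) = m * (a * n1 + 9 * b * n3) := by
    linear_combination tv j * hA - tu j * hB + a * r1 + 3 * b * r3
  have f4 : D0 * (D * tp j - C * tq j) = m * (9 * c * n2 + d * n4) := by
    linear_combination tp j * hD - tq j * hC + 3 * c * r2 + d * r4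
  obtain ⟨b', e1⟩ : (3 : ℤ) ∣ B * tp j - A * tq j :=
    p3 (b := D0) ⟨m * (a * n2 + b * n4), by rw [mul_comm]; exact f1⟩ h0
  obtain ⟨c', e2⟩ : (3 : ℤ) ∣ C * tv j - D * tu j :=
    p3 (b := D0) ⟨m * (c * n1 + d * n3), by rw [mul_comm]; exact f2⟩ h0
  refine ⟨b', c', e1, e2, pt_unscale h0 (pt_scale hN hm f3 ?_ ?_ f4)⟩
  · have : 3 * (D0 * b') = 3 * (m * (a * n2 + b * n4)) := by
      rw [← f1, e1]
      ring
    linarith
  · have : 3 * (D0 * c') = 3 * (m * (c * n1 + d * n3)) := by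
      rw [← f2, e2]
      ring
    linarith

/-! ### the table of the edges -/

private def e1 : Fin 3 → ℤ := ![0, -2, 5]
private def e2 : Fin 3 → ℤ := ![-1, 1, -3]
private def e3 : Fin 3 → ℤ := ![5, -5, 10]
private def e4 : Fin 3 → ℤ := ![0, 2, -5]
private def sg : Fin 3 → Fin 12 → Fin 12 := ![![8, 1, 3, 2, 7, 6, 5, 4, 0, 11, 10, 9],
    ![9, 2, 1, 10, 5, 4, 11, 8, 7, 0, 3, 6],
    ![1, 0, 5, 4, 3, 2, 7, 6, 8, 10, 9, 11]]
private def mm : Fin 3 → Fin 12 → ℤ := ![![5, -5, 5, -5, -5, -5, 5, 5, -5, 1, 1, -1],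
    ![1, 5, -5, -1, 5, -5, -1, 5, -5, -1, 1, 1],
    ![-5, 5, 5, 5, -5, -5, 5, -5, 5, 1, -1, 1]]
private def m1 : Fin 3 → Fin 12 → ℤ := ![![1, 20, 1, 1, -25, 1, 1, 70, 1, 25, 20, 65],
    ![1, 1, 1, 1, 1, 1, 1, 1, 1, 1, 1, 1],
    ![1, 1, 5, 1, 1, 10, 1, 1, 25, 10, 5, 20]]
private def m2 : Fin 3 → Fin 12 → ℤ := ![![-1, 3, 0, 0, 13, 0, 0, -13, 1, -12, -3, 12],
    ![0, 0, 0, 0, 0, 0, 0, 0, 0, 0, 0, 0],
    ![0, 0, -1, 0, 0, 1, 0, 0, -14, -1, 1, -9]]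
private def m3 : Fin 3 → Fin 12 → ℤ := ![![0, -15, 0, 0, -15, 0, 0, 15, 0, -15, 15, 15],
    ![0, 0, 0, 0, 0, 0, 0, 0, 0, 0, 0, 0],
    ![0, 0, -5, 0, 0, 5, 0, 0, 5, -5, 5, 5]]
private def m4 : Fin 3 → Fin 12 → ℤ := ![![1, -20, 1, 1, 70, 1, 1, -25, 1, 65, -20, 25],
    ![1, 1, 1, 1, 1, 1, 1, 1, 1, 1, 1, 1],
    ![1, 1, 10, 1, 1, 5, 1, 1, -25, 5, 10, -20]]
private def vT : Fin 3 → Fin 12 → Fin 14 := ![![0, 3, 5, 0, 7, 9, 0, 11, 13, 2, 6, 10],
    ![3, 0, 4, 7, 0, 8, 11, 0, 12, 1, 5, 9],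
    ![0, 3, 5, 0, 7, 9, 0, 11, 13, 2, 6, 10]]
private def vF : Fin 3 → Fin 12 → Fin 14 := ![![1, 4, 0, 5, 8, 0, 9, 12, 0, 3, 7, 11],
    ![1, 4, 0, 5, 8, 0, 9, 12, 0, 3, 7, 11],
    ![3, 0, 4, 7, 0, 8, 11, 0, 12, 1, 5, 9]]

private theorem tb1 : ∀ (e : Fin 3) (i : Fin 12),
    (tp i * e1 e + tq i * e3 e) * tv (sg e i) - (tp i * e2 e + tq i * e4 e) * tu (sg e i) =
      mm e i * m1 e i ∧
    (tp i * e2 e + tq i * e4 e) * tp (sg e i) - (tp i * e1 e + tq i * e3 e) * tq (sg e i) =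
      mm e i * (3 * m2 e i) ∧
    (tu i * e1 e + tv i * e3 e) * tv (sg e i) - (tu i * e2 e + tv i * e4 e) * tu (sg e i) =
      mm e i * (3 * m3 e i) ∧
    (tu i * e2 e + tv i * e4 e) * tp (sg e i) - (tu i * e1 e + tv i * e3 e) * tq (sg e i) =
      mm e i * m4 e i := by
  decide

private theorem tb2 : ∀ (e : Fin 3) (i : Fin 12), ¬ (3 : ℤ) ∣ mm e i ∧ ¬ (3 : ℤ) ∣ m1 e i ∧
    ¬ (3 : ℤ) ∣ m4 e i := by
  decide

private theorem cl_right {r s : ℕ} {a b c d : ℤ} {i : Fin 12} {x : ZMod (3 ^ r)}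
    {y : ZMod (3 ^ s)} (h : Cl a b c d i x y) (e : Fin 3) :
    Cl (a * e1 e + b * e3 e) (a * e2 e + b * e4 e) (c * e1 e + d * e3 e) (c * e2 e + d * e4 e)
      (sg e i) (((m2 e i : ZMod (3 ^ r)) + (m4 e i : ZMod (3 ^ r)) * x) *
        ((m1 e i : ZMod (3 ^ r)) + 9 * (m3 e i : ZMod (3 ^ r)) * x)⁻¹)
      (((m3 e i : ZMod (3 ^ s)) + (m1 e i : ZMod (3 ^ s)) * y) *
        ((m4 e i : ZMod (3 ^ s)) + 9 * (m2 e i : ZMod (3 ^ s)) * y)⁻¹) := by
  obtain ⟨b', c', f1, f2, hp⟩ := h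
  obtain ⟨g1, g2, g3, g4⟩ := tb1 e i
  obtain ⟨k1, k2, k3⟩ := tb2 e i
  refine cl_gen hp (sg e i) (t1 := tp i * e1 e + tq i * e3 e) (t2 := tp i * e2 e + tq i * e4 e)
    (t3 := tu i * e1 e + tv i * e3 e) (t4 := tu i * e2 e + tv i * e4 e)
    (D0 := tp i * tv i - tq i * tu i) (hdet i) k1 k2 k3 ?_ ?_ ?_ ?_ g1 g2 g3 g4
  · linear_combination (tu i * e1 e + tv i * e3 e) * f1
  · linear_combination (tu i * e2 e + tv i * e4 e) * f1
  · linear_combination (tp i * e1 e + tq i * e3 e) * f2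
  · linear_combination (tp i * e2 e + tq i * e4 e) * f2

/-! ### the functions -/

section

variable {R : Type} [AddCommGroup R] {r s : ℕ}

open Classical in
private noncomputable def KV (H : Fin 12 → ZMod (3 ^ r) → ZMod (3 ^ s) → R) (a b c d : ℤ) : R :=
  if h : ∃ v : R, ∃ (i : Fin 12) (x : ZMod (3 ^ r)) (y : ZMod (3 ^ s)),
    Cl a b c d i x y ∧ v = H i x y then h.choose else 0

private theorem kv {H : Fin 12 → ZMod (3 ^ r) → ZMod (3 ^ s) → R} {a b c d : ℤ} {i : Fin 12}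
    {x : ZMod (3 ^ r)} {y : ZMod (3 ^ s)} (h : Cl a b c d i x y) : KV H a b c d = H i x y := by
  have h' : ∃ v : R, ∃ (i : Fin 12) (x : ZMod (3 ^ r)) (y : ZMod (3 ^ s)),
    Cl a b c d i x y ∧ v = H i x y := ⟨_, i, x, y, h, rfl⟩
  unfold KV
  rw [dif_pos h']
  obtain ⟨j, x', y', hc, hv⟩ := h'.choose_spec
  obtain ⟨rfl, rfl, rfl⟩ := cl_uniq h hc
  exact hv

private theorem kv_scale {H : Fin 12 → ZMod (3 ^ r) → ZMod (3 ^ s) → R} {a b c d : ℤ}
    (h : ¬ (3 : ℤ) ∣ a * d - b * c) (k : ℤ) (hk : ¬ (3 : ℤ) ∣ k) {A B C D : ℤ} (hA : A = k * a)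
    (hB : B = k * b) (hC : C = k * c) (hD : D = k * d) : KV H A B C D = KV H a b c d := by
  obtain ⟨i, x, y, hc⟩ := ex_cl r s h
  rw [kv hc, kv (cl_scale hc hk hA hB hC hD)]

private theorem kv_left {H : Fin 12 → ZMod (3 ^ r) → ZMod (3 ^ s) → R}
    {a b c d α β γ δ A B C D : ℤ} (h : ¬ (3 : ℤ) ∣ a * d - b * c)
    (hα : ¬ (3 : ℤ) ∣ α) (hδ : ¬ (3 : ℤ) ∣ δ) (hβ : (3 : ℤ) ^ (r + 1) ∣ β)
    (hγ : (3 : ℤ) ^ (s + 1) ∣ γ) (hA : A = α * a + β * c) (hB : B = α * b + β * d)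
    (hC : C = γ * a + δ * c) (hD : D = γ * b + δ * d) : KV H A B C D = KV H a b c d := by
  obtain ⟨β', rfl⟩ := hβ
  obtain ⟨γ', rfl⟩ := hγ
  obtain ⟨i, x, y, hc⟩ := ex_cl r s h
  rw [kv hc, kv (cl_left hc hα hδ hA hB hC hD)]

private theorem kv_gen {H : Fin 12 → ZMod (3 ^ r) → ZMod (3 ^ s) → R} {a b c d : ℤ}
    {x : ZMod (3 ^ r)} {y : ZMod (3 ^ s)} (hp : Pt a b c d x y) {A B C D : ℤ}
    (t1 t2 t3 t4 : ℤ) (j : Fin 12) (m n1 n2 n3 n4 : ℤ)
    (hm : ¬ (3 : ℤ) ∣ m) (hn1 : ¬ (3 : ℤ) ∣ n1) (hn4 : ¬ (3 : ℤ) ∣ n4)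
    (r1 : t1 * tv j - t2 * tu j = m * n1) (r2 : t2 * tp j - t1 * tq j = m * (3 * n2))
    (r3 : t3 * tv j - t4 * tu j = m * (3 * n3)) (r4 : t4 * tp j - t3 * tq j = m * n4)
    (hA : A = a * t1 + 3 * b * t3) (hB : B = a * t2 + 3 * b * t4)
    (hC : C = 3 * c * t1 + d * t3) (hD : D = 3 * c * t2 + d * t4) :
    KV H A B C D = tr n1 n2 n3 n4 (H j) x y :=
  kv (cl_gen hp j (D0 := 1) (by decide) hm hn1 hn4 (by rw [hA, one_mul]) (by rw [hB, one_mul])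
    (by rw [hC, one_mul]) (by rw [hD, one_mul]) r1 r2 r3 r4)

variable (F : Fin 9 → ZMod (3 ^ r) → ZMod (3 ^ s) → R)

/-- the value of the path from `∞` to the vertex -/
private noncomputable def PP : Fin 14 → ZMod (3 ^ r) → ZMod (3 ^ s) → R
  | 0 => fun _ _ => 0
  | 1 => fun x y => -F 0 x y
  | 2 => fun x y => -F 0 x y + F 1 x y
  | 3 => fun x y => -F 0 x y + F 1 x y + F 2 x y
  | 4 => fun x y => -F 0 x y + F 1 x y + F 2 x y + F 5 x y
  | 5 => fun x y => -F 0 x y + F 1 x y + F 2 x y + F 5 x y + F 4 x y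
  | 6 => fun x y => -F 0 x y + F 1 x y + F 2 x y + F 5 x y + F 4 x y - tr 5 1 5 10 (F 1) x y
  | 7 => fun x y => -F 0 x y + F 1 x y + F 2 x y + F 5 x y + F 4 x y - tr 5 1 5 10 (F 1) x y + F
      6 x y
  | 8 => fun x y => -F 0 x y + F 1 x y + F 2 x y + F 5 x y + F 4 x y - tr 5 1 5 10 (F 1) x y + F
      6 x y + F 3 x y
  | 9 => fun x y => -F 0 x y + F 1 x y + F 2 x y + F 5 x y + F 4 x y - tr 5 1 5 10 (F 1) x y + F
      6 x y + F 3 x y - tr 10 1 5 5 (F 4) x y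
  | 10 => fun x y => -F 0 x y + F 1 x y + F 2 x y + F 5 x y + F 4 x y - tr 5 1 5 10 (F 1) x y + F
      6 x y + F 3 x y - tr 10 1 5 5 (F 4) x y + F 7 x y
  | 11 => fun x y => -F 0 x y + F 1 x y + F 2 x y + F 5 x y + F 4 x y - tr 5 1 5 10 (F 1) x y + F
      6 x y + F 3 x y - tr 10 1 5 5 (F 4) x y + F 7 x y - tr 65 12 15 25 (F 2) x y
  | 12 => fun x y => -F 0 x y + F 1 x y + F 2 x y + F 5 x y + F 4 x y - tr 5 1 5 10 (F 1) x y + F
      6 x y + F 3 x y - tr 10 1 5 5 (F 4) x y + F 7 x y - tr 65 12 15 25 (F 2) x y - tr 70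
      (-13) 15 (-25) (F 3) x y
  | 13 => fun x y => -F 0 x y + F 1 x y + F 2 x y + F 5 x y + F 4 x y - tr 5 1 5 10 (F 1) x y + F
      6 x y + F 3 x y - tr 10 1 5 5 (F 4) x y + F 7 x y - tr 65 12 15 25 (F 2) x y - tr 70
      (-13) 15 (-25) (F 3) x y + F 8 x y

private noncomputable def HH (e : Fin 3) (i : Fin 12) : ZMod (3 ^ r) → ZMod (3 ^ s) → R :=
  fun x y => PP F (vT e i) x y - PP F (vF e i) x y

variable {F}

private theorem pp13 (hR : RelT F) (x : ZMod (3 ^ r)) (y : ZMod (3 ^ s)) :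
    PP F 13 x y = -tr 1 1 0 1 (F 0) x y := by
  have h := hR.2.2.2.2 x y
  have h1 : PP F 13 x y + tr 1 1 0 1 (F 0) x y = 0 := by
    rw [← h]
    simp only [PP]
    abel
  exact eq_neg_of_add_eq_zero_left h1

omit [AddCommGroup R] in
private theorem tinv (ht : S3Trm) {a b c d a' b' c' d' k : ℤ} (f : ZMod (3 ^ r) → ZMod (3 ^ s) → R)
    (ha : ¬ (3 : ℤ) ∣ a) (hd : ¬ (3 : ℤ) ∣ d) (ha' : ¬ (3 : ℤ) ∣ a') (hd' : ¬ (3 : ℤ) ∣ d')
    (hk : ¬ (3 : ℤ) ∣ k) (h1 : a * a' + 9 * b * c' = k * 1) (h2 : a * b' + b * d' = k * 0)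
    (h3 : c * a' + d * c' = k * 0) (h4 : 9 * c * b' + d * d' = k * 1) :
    tr a b c d (tr a' b' c' d' f) = f := by
  rw [(ht R r s f).1 a b c d a' b' c' d' ha hd ha' hd', h1, h2, h3, h4,
    (ht R r s f).2.2 k 1 0 0 1 hk (by decide) (by decide), (ht R r s f).2.1]

private theorem dg (ht : S3Trm) (u v : Fin 14) (x : ZMod (3 ^ r)) (y : ZMod (3 ^ s)) :
    tr 1 0 0 1 (fun x y => PP F u x y - PP F v x y) x y = -(PP F v x y - PP F u x y) := by
  rw [(ht R r s _).2.1, neg_sub]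

/-! ### the sides -/

private theorem es0 : (fun (x : ZMod (3 ^ r)) (y : ZMod (3 ^ s)) =>
    PP F 0 x y - PP F 1 x y) = fun x y => F 0 x y := by
  funext x y
  simp only [PP]
  abel

private theorem es1 : (fun (x : ZMod (3 ^ r)) (y : ZMod (3 ^ s)) =>
    PP F 2 x y - PP F 1 x y) = fun x y => F 1 x y := by
  funext x y
  simp only [PP]
  abel

private theorem es2 : (fun (x : ZMod (3 ^ r)) (y : ZMod (3 ^ s)) =>
    PP F 2 x y - PP F 3 x y) = fun x y => -F 2 x y := by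
  funext x y
  simp only [PP]
  abel

private theorem es3 : (fun (x : ZMod (3 ^ r)) (y : ZMod (3 ^ s)) =>
    PP F 3 x y - PP F 4 x y) = fun x y => -F 5 x y := by
  funext x y
  simp only [PP]
  abel

private theorem es4 : (fun (x : ZMod (3 ^ r)) (y : ZMod (3 ^ s)) =>
    PP F 5 x y - PP F 4 x y) = fun x y => F 4 x y := by
  funext x y
  simp only [PP]
  abel

private theorem es5 : (fun (x : ZMod (3 ^ r)) (y : ZMod (3 ^ s)) =>
    PP F 6 x y - PP F 5 x y) = fun x y => -tr 5 1 5 10 (F 1) x y := by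
  funext x y
  simp only [PP]
  abel

private theorem es6 : (fun (x : ZMod (3 ^ r)) (y : ZMod (3 ^ s)) =>
    PP F 6 x y - PP F 7 x y) = fun x y => -F 6 x y := by
  funext x y
  simp only [PP]
  abel

private theorem es7 : (fun (x : ZMod (3 ^ r)) (y : ZMod (3 ^ s)) =>
    PP F 7 x y - PP F 8 x y) = fun x y => -F 3 x y := by
  funext x y
  simp only [PP]
  abel

private theorem es8 : (fun (x : ZMod (3 ^ r)) (y : ZMod (3 ^ s)) =>
    PP F 9 x y - PP F 8 x y) = fun x y => -tr 10 1 5 5 (F 4) x y := by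
  funext x y
  simp only [PP]
  abel

private theorem es9 : (fun (x : ZMod (3 ^ r)) (y : ZMod (3 ^ s)) =>
    PP F 10 x y - PP F 9 x y) = fun x y => F 7 x y := by
  funext x y
  simp only [PP]
  abel

private theorem es10 : (fun (x : ZMod (3 ^ r)) (y : ZMod (3 ^ s)) =>
    PP F 10 x y - PP F 11 x y) = fun x y => tr 65 12 15 25 (F 2) x y := by
  funext x y
  simp only [PP]
  abel

private theorem es11 : (fun (x : ZMod (3 ^ r)) (y : ZMod (3 ^ s)) =>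
    PP F 11 x y - PP F 12 x y) = fun x y => tr 70 (-13) 15 (-25) (F 3) x y := by
  funext x y
  simp only [PP]
  abel

private theorem es12 : (fun (x : ZMod (3 ^ r)) (y : ZMod (3 ^ s)) =>
    PP F 13 x y - PP F 12 x y) = fun x y => F 8 x y := by
  funext x y
  simp only [PP]
  abel

private theorem es13 (hR : RelT F) : (fun (x : ZMod (3 ^ r)) (y : ZMod (3 ^ s)) =>
    PP F 13 x y - PP F 0 x y) = fun x y => -tr 1 1 0 1 (F 0) x y := by
  funext x y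
  rw [pp13 hR x y]
  simp only [PP]
  abel

private theorem sd0 (ht : S3Trm) (hR : RelT F) (x : ZMod (3 ^ r)) (y : ZMod (3 ^ s)) :
    tr 1 (-1) 0 1 (fun x y => PP F 13 x y - PP F 0 x y) x y =
      -(PP F 0 x y - PP F 1 x y) := by
  have h1 := congrFun (congrFun (es0 (F := F)) x) y
  rw [h1, es13 hR (F := F)]
  have h := tinv ht (F 0) (a := 1) (b := -1) (c := 0) (d := 1) (a' := 1) (b' := 1) (c' := 0) (d' := 1)
    (k := 1) (by decide) (by decide) (by decide) (by decide) (by decide) (by norm_num)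
    (by norm_num) (by norm_num) (by norm_num)
  show -tr 1 (-1) 0 1 (tr 1 1 0 1 (F 0)) x y = -F 0 x y
  rw [h]

private theorem sd1 (ht : S3Trm) (_hR : RelT F) (x : ZMod (3 ^ r)) (y : ZMod (3 ^ s)) :
    tr 10 (-1) (-5) 5 (fun x y => PP F 6 x y - PP F 5 x y) x y =
      -(PP F 2 x y - PP F 1 x y) := by
  have h1 := congrFun (congrFun (es1 (F := F)) x) y
  rw [h1, es5 (F := F)]
  have h := tinv ht (F 1) (a := 10) (b := -1) (c := -5) (d := 5) (a' := 5) (b' := 1)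
    (c' := 5) (d' := 10) (k := 5) (by decide) (by decide) (by decide) (by decide) (by decide)
    (by norm_num) (by norm_num) (by norm_num) (by norm_num)
  show -tr 10 (-1) (-5) 5 (tr 5 1 5 10 (F 1)) x y = -F 1 x y
  rw [h]

private theorem sd2 (ht : S3Trm) (_hR : RelT F) (x : ZMod (3 ^ r)) (y : ZMod (3 ^ s)) :
    tr 25 (-12) (-15) 65 (fun x y => PP F 10 x y - PP F 11 x y) x y =
      -(PP F 2 x y - PP F 3 x y) := by
  have h1 := congrFun (congrFun (es2 (F := F)) x) y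
  rw [h1, es10 (F := F)]
  have h := tinv ht (F 2) (a := 25) (b := -12) (c := -15) (d := 65) (a' := 65) (b' := 12)
    (c' := 15) (d' := 25) (k := 5) (by decide) (by decide) (by decide) (by decide) (by decide)
    (by norm_num) (by norm_num) (by norm_num) (by norm_num)
  show tr 25 (-12) (-15) 65 (tr 65 12 15 25 (F 2)) x y = - -F 2 x y
  rw [h, neg_neg]

private theorem sd3 (_ht : S3Trm) (hR : RelT F) (x : ZMod (3 ^ r)) (y : ZMod (3 ^ s)) :
    tr 20 3 (-15) (-20) (fun x y => PP F 3 x y - PP F 4 x y) x y =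
      -(PP F 3 x y - PP F 4 x y) := by
  have h1 := congrFun (congrFun (es3 (F := F)) x) y
  rw [h1, es3 (F := F)]
  have h := hR.1 x y
  show -tr 20 3 (-15) (-20) (F 5) x y = - -F 5 x y
  rw [neg_neg]
  exact (eq_neg_of_add_eq_zero_left h).symm

private theorem sd4 (ht : S3Trm) (_hR : RelT F) (x : ZMod (3 ^ r)) (y : ZMod (3 ^ s)) :
    tr 5 (-1) (-5) 10 (fun x y => PP F 9 x y - PP F 8 x y) x y =
      -(PP F 5 x y - PP F 4 x y) := by
  have h1 := congrFun (congrFun (es4 (F := F)) x) y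
  rw [h1, es8 (F := F)]
  have h := tinv ht (F 4) (a := 5) (b := -1) (c := -5) (d := 10) (a' := 10) (b' := 1)
    (c' := 5) (d' := 5) (k := 5) (by decide) (by decide) (by decide) (by decide) (by decide)
    (by norm_num) (by norm_num) (by norm_num) (by norm_num)
  show -tr 5 (-1) (-5) 10 (tr 10 1 5 5 (F 4)) x y = -F 4 x y
  rw [h]

private theorem sd5 (_ht : S3Trm) (_hR : RelT F) (x : ZMod (3 ^ r)) (y : ZMod (3 ^ s)) :
    tr 5 1 5 10 (fun x y => PP F 2 x y - PP F 1 x y) x y =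
      -(PP F 6 x y - PP F 5 x y) := by
  have h1 := congrFun (congrFun (es5 (F := F)) x) y
  rw [h1, es1 (F := F)]
  exact (neg_neg _).symm

private theorem sd6 (_ht : S3Trm) (hR : RelT F) (x : ZMod (3 ^ r)) (y : ZMod (3 ^ s)) :
    tr 20 (-3) 15 (-20) (fun x y => PP F 6 x y - PP F 7 x y) x y =
      -(PP F 6 x y - PP F 7 x y) := by
  have h1 := congrFun (congrFun (es6 (F := F)) x) y
  rw [h1, es6 (F := F)]
  have h := hR.2.1 x y
  show -tr 20 (-3) 15 (-20) (F 6) x y = - -F 6 x y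
  rw [neg_neg]
  exact (eq_neg_of_add_eq_zero_left h).symm

private theorem sd7 (ht : S3Trm) (_hR : RelT F) (x : ZMod (3 ^ r)) (y : ZMod (3 ^ s)) :
    tr (-25) 13 (-15) 70 (fun x y => PP F 11 x y - PP F 12 x y) x y =
      -(PP F 7 x y - PP F 8 x y) := by
  have h1 := congrFun (congrFun (es7 (F := F)) x) y
  rw [h1, es11 (F := F)]
  have h := tinv ht (F 3) (a := -25) (b := 13) (c := -15) (d := 70) (a' := 70) (b' := -13)
    (c' := 15) (d' := -25) (k := 5) (by decide) (by decide) (by decide) (by decide) (by decide)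
    (by norm_num) (by norm_num) (by norm_num) (by norm_num)
  show tr (-25) 13 (-15) 70 (tr 70 (-13) 15 (-25) (F 3)) x y = - -F 3 x y
  rw [h, neg_neg]

private theorem sd8 (_ht : S3Trm) (_hR : RelT F) (x : ZMod (3 ^ r)) (y : ZMod (3 ^ s)) :
    tr 10 1 5 5 (fun x y => PP F 5 x y - PP F 4 x y) x y =
      -(PP F 9 x y - PP F 8 x y) := by
  have h1 := congrFun (congrFun (es8 (F := F)) x) y
  rw [h1, es4 (F := F)]
  exact (neg_neg _).symm

private theorem sd9 (_ht : S3Trm) (hR : RelT F) (x : ZMod (3 ^ r)) (y : ZMod (3 ^ s)) :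
    tr 20 (-9) 5 (-20) (fun x y => PP F 10 x y - PP F 9 x y) x y =
      -(PP F 10 x y - PP F 9 x y) := by
  have h1 := congrFun (congrFun (es9 (F := F)) x) y
  rw [h1, es9 (F := F)]
  have h := hR.2.2.1 x y
  show tr 20 (-9) 5 (-20) (F 7) x y = -F 7 x y
  exact eq_neg_of_add_eq_zero_right h

private theorem sd10 (_ht : S3Trm) (_hR : RelT F) (x : ZMod (3 ^ r)) (y : ZMod (3 ^ s)) :
    tr 65 12 15 25 (fun x y => PP F 2 x y - PP F 3 x y) x y =
      -(PP F 10 x y - PP F 11 x y) := by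
  have h1 := congrFun (congrFun (es10 (F := F)) x) y
  rw [h1, es2 (F := F)]
  rfl

private theorem sd11 (_ht : S3Trm) (_hR : RelT F) (x : ZMod (3 ^ r)) (y : ZMod (3 ^ s)) :
    tr 70 (-13) 15 (-25) (fun x y => PP F 7 x y - PP F 8 x y) x y =
      -(PP F 11 x y - PP F 12 x y) := by
  have h1 := congrFun (congrFun (es11 (F := F)) x) y
  rw [h1, es7 (F := F)]
  rfl

private theorem sd12 (_ht : S3Trm) (hR : RelT F) (x : ZMod (3 ^ r)) (y : ZMod (3 ^ s)) :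
    tr 25 (-14) 5 (-25) (fun x y => PP F 13 x y - PP F 12 x y) x y =
      -(PP F 13 x y - PP F 12 x y) := by
  have h1 := congrFun (congrFun (es12 (F := F)) x) y
  rw [h1, es12 (F := F)]
  have h := hR.2.2.2.1 x y
  show tr 25 (-14) 5 (-25) (F 8) x y = -F 8 x y
  exact eq_neg_of_add_eq_zero_right h

private theorem sd13 (_ht : S3Trm) (hR : RelT F) (x : ZMod (3 ^ r)) (y : ZMod (3 ^ s)) :
    tr 1 1 0 1 (fun x y => PP F 0 x y - PP F 1 x y) x y =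
      -(PP F 13 x y - PP F 0 x y) := by
  have h1 := congrFun (congrFun (es13 hR (F := F)) x) y
  rw [h1, es0 (F := F)]
  exact (neg_neg _).symm

private theorem tabp (ht : S3Trm) (hR : RelT F) : ∀ (e : Fin 3) (i : Fin 12) (x : ZMod (3 ^ r))
    (y : ZMod (3 ^ s)),
    tr (m1 e i) (m2 e i) (m3 e i) (m4 e i) (HH F e (sg e i)) x y = -HH F e i x y
  | 0, 0 => sd0 ht hR
  | 0, 1 => sd3 ht hR
  | 0, 2 => dg ht 0 5
  | 0, 3 => dg ht 5 0
  | 0, 4 => sd7 ht hR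
  | 0, 5 => dg ht 0 9
  | 0, 6 => dg ht 9 0
  | 0, 7 => sd11 ht hR
  | 0, 8 => sd13 ht hR
  | 0, 9 => sd2 ht hR
  | 0, 10 => sd6 ht hR
  | 0, 11 => sd10 ht hR
  | 1, 0 => dg ht 1 3
  | 1, 1 => dg ht 4 0
  | 1, 2 => dg ht 0 4
  | 1, 3 => dg ht 5 7
  | 1, 4 => dg ht 8 0
  | 1, 5 => dg ht 0 8
  | 1, 6 => dg ht 9 11
  | 1, 7 => dg ht 12 0
  | 1, 8 => dg ht 0 12
  | 1, 9 => dg ht 3 1
  | 1, 10 => dg ht 7 5
  | 1, 11 => dg ht 11 9
  | 2, 0 => dg ht 3 0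
  | 2, 1 => dg ht 0 3
  | 2, 2 => sd4 ht hR
  | 2, 3 => dg ht 7 0
  | 2, 4 => dg ht 0 7
  | 2, 5 => sd8 ht hR
  | 2, 6 => dg ht 11 0
  | 2, 7 => dg ht 0 11
  | 2, 8 => sd12 ht hR
  | 2, 9 => sd1 ht hR
  | 2, 10 => sd5 ht hR
  | 2, 11 => sd9 ht hR

private theorem kv_right (ht : S3Trm) (hR : RelT F) (e : Fin 3) {a b c d : ℤ}
    (h : ¬ (3 : ℤ) ∣ a * d - b * c) :
    KV (HH F e) (a * e1 e + b * e3 e) (a * e2 e + b * e4 e) (c * e1 e + d * e3 e)
      (c * e2 e + d * e4 e) = -KV (HH F e) a b c d := by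
  obtain ⟨i, x, y, hc⟩ := ex_cl r s h
  rw [kv hc, kv (cl_right hc e)]
  exact tabp ht hR e i x y

private theorem kv_sum {a b c d : ℤ} (h : ¬ (3 : ℤ) ∣ a * d - b * c) :
    KV (HH F 2) a b c d = KV (HH F 0) a b c d - KV (HH F 1) a b c d := by
  obtain ⟨i, x, y, hc⟩ := ex_cl r s h
  rw [kv hc, kv hc, kv hc]
  have h1 : vT 2 i = vT 0 i := rfl
  have h2 : vF 2 i = vT 1 i := rfl
  have h3 : vF 1 i = vF 0 i := rfl
  simp only [HH]
  rw [h1, h2, h3]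
  abel

private theorem kr0 (ht : S3Trm) (hR : RelT F) {a b c d A B C D : ℤ}
    (h : ¬ (3 : ℤ) ∣ a * d - b * c) (hA : A = 5 * b) (hB : B = -a) (hC : C = 5 * d)
    (hD : D = -c) : KV (HH F 0) A B C D = -KV (HH F 0) a b c d := by
  rw [← kv_right ht hR 0 h, hA, hB, hC, hD]
  show KV (HH F 0) (5 * b) (-a) (5 * d) (-c) =
    KV (HH F 0) (a * 0 + b * 5) (a * (-1) + b * 0) (c * 0 + d * 5) (c * (-1) + d * 0)
  congr 1 <;> ring

private theorem kr1 (ht : S3Trm) (hR : RelT F) {a b c d A B C D : ℤ}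
    (h : ¬ (3 : ℤ) ∣ a * d - b * c) (hA : A = -2 * a - 5 * b) (hB : B = a + 2 * b)
    (hC : C = -2 * c - 5 * d) (hD : D = c + 2 * d) :
    KV (HH F 1) A B C D = -KV (HH F 1) a b c d := by
  rw [← kv_right ht hR 1 h, hA, hB, hC, hD]
  show KV (HH F 1) (-2 * a - 5 * b) (a + 2 * b) (-2 * c - 5 * d) (c + 2 * d) =
    KV (HH F 1) (a * (-2) + b * (-5)) (a * 1 + b * 2) (c * (-2) + d * (-5)) (c * 1 + d * 2)
  congr 1 <;> ring

private theorem kr2 (ht : S3Trm) (hR : RelT F) {a b c d A B C D : ℤ}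
    (h : ¬ (3 : ℤ) ∣ a * d - b * c) (hA : A = 5 * a + 10 * b) (hB : B = -3 * a - 5 * b)
    (hC : C = 5 * c + 10 * d) (hD : D = -3 * c - 5 * d) :
    KV (HH F 2) A B C D = -KV (HH F 2) a b c d := by
  rw [← kv_right ht hR 2 h, hA, hB, hC, hD]
  show KV (HH F 2) (5 * a + 10 * b) (-3 * a - 5 * b) (5 * c + 10 * d) (-3 * c - 5 * d) =
    KV (HH F 2) (a * 5 + b * 10) (a * (-3) + b * (-5)) (c * 5 + d * 10) (c * (-3) + d * (-5))
  congr 1 <;> ring

end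

private theorem one3 {m : ℤ} (h : m = 1) : ¬ (3 : ℤ) ∣ m := by
  rw [h]
  decide

private theorem ndet {a b c d : ℤ} (h : ¬ (3 : ℤ) ∣ a * d - b * c) (k : ℤ)
    (hk : ¬ (3 : ℤ) ∣ k) {m : ℤ} (hm : m = k * (a * d - b * c)) : ¬ (3 : ℤ) ∣ m := by
  rw [hm]
  exact ndm hk h

private theorem kv1 {R : Type} [AddCommGroup R] {r s : ℕ}
    (F : Fin 9 → ZMod (3 ^ r) → ZMod (3 ^ s) → R) (ht : S3Trm) {a b c d : ℤ}
    {x : ZMod (3 ^ r)} {y : ZMod (3 ^ s)} (hp : Pt a b c d x y) {A B C D : ℤ}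
    (e : Fin 3) (j : Fin 12) (u v : Fin 14) (m t1 t2 t3 t4 : ℤ) (hm : ¬ (3 : ℤ) ∣ m)
    (hu : vT e j = u) (hv : vF e j = v)
    (r1 : t1 * tv j - t2 * tu j = m * 1) (r2 : t2 * tp j - t1 * tq j = m * (3 * 0))
    (r3 : t3 * tv j - t4 * tu j = m * (3 * 0)) (r4 : t4 * tp j - t3 * tq j = m * 1)
    (hA : A = a * t1 + 3 * b * t3) (hB : B = a * t2 + 3 * b * t4)
    (hC : C = 3 * c * t1 + d * t3) (hD : D = 3 * c * t2 + d * t4) :
    KV (HH F e) A B C D = PP F u x y - PP F v x y := by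
  rw [kv_gen (H := HH F e) hp t1 t2 t3 t4 j m 1 0 0 1 hm (by decide) (by decide) r1 r2 r3 r4
    hA hB hC hD, (ht R r s _).2.1, ← hu, ← hv]
  rfl

/-- Module ExA. -/
theorem hExA (ht : S3Trm) : TExA := by
  intro R _ r s F hR
  refine ⟨KV (HH F 0), KV (HH F 1), fun a b c d => KV (HH F 1) (5 * b) (-a) (5 * d) (-c), ?_⟩
  unfold VWU
  refine ⟨?_, ?_, ?_, ?_, ?_⟩
  · intro a b c d h _
    have hN := one3 h
    refine ⟨kv_scale hN (-1) (by decide) (by ring) (by ring) (by ring) (by ring),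
      kv_scale hN (-1) (by decide) (by ring) (by ring) (by ring) (by ring), ?_⟩
    exact kv_scale (a := 5 * b) (b := -a) (c := 5 * d) (d := -c)
      (ndet hN 5 (by decide) (by ring)) (-1) (by decide) (by ring) (by ring) (by ring) (by ring)
  · intro a b c d h _
    have hN := one3 h
    have hN2 : ¬ (3 : ℤ) ∣ 5 * b * -c - -a * (5 * d) := ndet hN 5 (by decide) (by ring)
    refine ⟨kr1 ht hR hN rfl rfl rfl rfl, ?_, ?_⟩
    · exact kr1 ht hR hN2 (by ring) (by ring) (by ring) (by ring)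
    · have hH : ¬ (3 : ℤ) ∣ (3 * a + 5 * b) * (c + 2 * d) - (a + 2 * b) * (3 * c + 5 * d) :=
        ndet hN 1 (by decide) (by ring)
      have hE : ¬ (3 : ℤ) ∣ 5 * (a + 2 * b) * -(3 * c + 5 * d) - -(3 * a + 5 * b) * (5 * (c + 2 * d)) :=
        ndet hN 5 (by decide) (by ring)
      have g1 := kr2 (F := F) ht hR (A := 5 * (a + 2 * b)) (B := -(3 * a + 5 * b))
        (C := 5 * (c + 2 * d)) (D := -(3 * c + 5 * d)) hN (by ring) (by ring) (by ring) (by ring)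
      have g2 := kr0 (F := F) ht hR hH (A := 5 * (a + 2 * b)) (B := -(3 * a + 5 * b))
        (C := 5 * (c + 2 * d)) (D := -(3 * c + 5 * d)) rfl rfl rfl rfl
      rw [kv_sum hE, kv_sum hN, g2] at g1
      show KV (HH F 0) a b c d - KV (HH F 1) a b c d =
        KV (HH F 0) (3 * a + 5 * b) (a + 2 * b) (3 * c + 5 * d) (c + 2 * d) +
        KV (HH F 1) (5 * (a + 2 * b)) (-(3 * a + 5 * b)) (5 * (c + 2 * d)) (-(3 * c + 5 * d))
      rw [← neg_inj, ← g1]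
      abel
  · intro α β γ δ a b c d hg _ hβ hγ h _
    obtain ⟨γ', hγ'⟩ := hγ
    have hN := one3 h
    have hr := res (a := α) (b := β * 3 ^ s) (c := γ') (d := δ) (one3 (by
      rw [← hg, hγ']; ring))
    refine ⟨kv_left hN hr.1 hr.2 hβ ⟨γ', hγ'⟩ rfl rfl rfl rfl,
      kv_left hN hr.1 hr.2 hβ ⟨γ', hγ'⟩ rfl rfl rfl rfl, ?_⟩
    exact kv_left (a := 5 * b) (b := -a) (c := 5 * d) (d := -c)
      (ndet hN 5 (by decide) (by ring)) hr.1 hr.2 hβ ⟨γ', hγ'⟩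
      (by ring) (by ring) (by ring) (by ring)
  · intro α β γ δ a b c d hg hβ hγ h
    have hγ2 := hγ
    obtain ⟨γ', hγ'⟩ := hγ
    have hr := res (a := 5 * α) (b := β * 3 ^ s) (c := γ') (d := δ) (one3 (by
      rw [← hg, hγ']; ring))
    have hd : ¬ (3 : ℤ) ∣ 5 * δ := ndm (by decide) hr.2
    have hN : ¬ (3 : ℤ) ∣ a * d - b * (5 * c) := one3 (by linear_combination h)
    have hN2 : ¬ (3 : ℤ) ∣ 5 * b * -(5 * c) - -a * (5 * d) := ndet hN 5 (by decide) (by ring)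
    have hZ : ¬ (3 : ℤ) ∣ (5 * α * b + β * d) * -(γ * a + 5 * δ * c) -
        -(α * a + β * c) * (5 * (γ * b + δ * d)) :=
      one3 (by linear_combination (a * d - 5 * b * c) * hg + h)
    have hL : ∀ H : Fin 12 → ZMod (3 ^ r) → ZMod (3 ^ s) → R,
        KV H (5 * α * b + β * d) (-(α * a + β * c)) (5 * (γ * b + δ * d))
          (-(γ * a + 5 * δ * c)) = KV H (5 * b) (-a) (5 * d) (-(5 * c)) := by
      intro H
      rw [← kv_left (H := H) (A := 5 * (5 * α * b + β * d)) (B := 5 * (-(α * a + β * c)))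
        (C := 5 * (5 * (γ * b + δ * d))) (D := 5 * (-(γ * a + 5 * δ * c))) hN2 hr.1 hd hβ
        (Dvd.dvd.mul_left hγ2 5) (by ring) (by ring) (by ring) (by ring)]
      exact (kv_scale hZ 5 (by decide) rfl rfl rfl rfl).symm
    refine ⟨?_, ?_, ?_⟩
    · rw [hL]
      exact kr0 ht hR hN rfl rfl rfl rfl
    · exact hL _
    · have hr' : ¬ (3 : ℤ) ∣ -(5 * α) := fun h => hr.1 ((dvd_neg).1 h)
      have hd' : ¬ (3 : ℤ) ∣ -(5 * δ) := fun h => hd ((dvd_neg).1 h)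
      exact kv_left (α := -(5 * α)) (β := -β) (γ := -(5 * γ)) (δ := -(5 * δ)) hN hr' hd'
        ((dvd_neg).2 hβ) ((dvd_neg).2 (Dvd.dvd.mul_left hγ2 5)) (by ring) (by ring) (by ring)
        (by ring)
  · intro x y a b c d h _ hx hy
    have hr := res (a := a) (b := b) (c := 3 * c) (d := d) (one3 (by linear_combination h))
    have hp : Pt a b c d x y := ⟨hr.1, hr.2, hx, hy⟩
    have v1 : KV (HH F 0) a (3 * b - a) (3 * c) (d - 3 * c) = PP F 0 x y - PP F 1 x y :=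
      kv1 F ht hp 0 0 0 1 1 1 (-1) 0 1 (by decide) rfl rfl (by decide) (by decide) (by decide)
        (by decide) (by ring) (by ring) (by ring) (by ring)
    have v2 : KV (HH F 0) (3 * a - 15 * b) (6 * b - a) (9 * c - 5 * d) (2 * d - 3 * c) =
        PP F 2 x y - PP F 3 x y :=
      kv1 F ht hp 0 9 2 3 1 3 (-1) (-5) 2 (by decide) rfl rfl (by decide) (by decide)
        (by decide) (by decide) (by ring) (by ring) (by ring) (by ring)
    have v3 : KV (HH F 1) a (3 * b - a) (3 * c) (d - 3 * c) = PP F 3 x y - PP F 1 x y :=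
      kv1 F ht hp 1 0 3 1 1 1 (-1) 0 1 (by decide) rfl rfl (by decide) (by decide) (by decide)
        (by decide) (by ring) (by ring) (by ring) (by ring)
    have v4 : KV (HH F 0) (3 * a + 15 * b) (a + 6 * b) (9 * c + 5 * d) (3 * c + 2 * d) =
        -(PP F 7 x y - PP F 8 x y) := by
      rw [kv_gen (H := HH F 0) hp 3 1 5 2 7 1 (-25) 13 (-15) 70 (by decide) (by decide)
        (by decide) (by decide) (by decide) (by decide) (by decide) (by ring) (by ring)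
        (by ring) (by ring)]
      exact sd7 ht hR x y
    have v5 : KV (HH F 0) a (3 * b) (3 * c) d = PP F 0 x y - PP F 5 x y :=
      kv1 F ht hp 0 3 0 5 1 1 0 0 1 (by decide) rfl rfl (by decide) (by decide) (by decide)
        (by decide) (by ring) (by ring) (by ring) (by ring)
    have v6 : KV (HH F 1) (5 * (3 * b)) (-a) (5 * d) (-(3 * c)) = PP F 4 x y - PP F 0 x y :=
      kv1 F ht hp 1 2 4 0 (-5) 0 (-1) 5 0 (by decide) rfl rfl (by decide) (by decide)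
        (by decide) (by decide) (by ring) (by ring) (by ring) (by ring)
    have v7 : KV (HH F 0) (15 * b - 2 * a) (6 * b - a) (5 * d - 6 * c) (2 * d - 3 * c) =
        -(PP F 3 x y - PP F 4 x y) := by
      rw [kv_gen (H := HH F 0) hp (-2) (-1) 5 2 1 (-1) 20 3 (-15) (-20) (by decide) (by decide)
        (by decide) (by decide) (by decide) (by decide) (by decide) (by ring) (by ring)
        (by ring) (by ring)]
      exact sd3 ht hR x y
    have v8 : KV (HH F 0) (-2 * a - 15 * b) (a + 6 * b) (-6 * c - 5 * d) (3 * c + 2 * d) =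
        PP F 6 x y - PP F 7 x y :=
      kv1 F ht hp 0 10 6 7 (-1) (-2) 1 (-5) 2 (by decide) rfl rfl (by decide) (by decide)
        (by decide) (by decide) (by ring) (by ring) (by ring) (by ring)
    have v9 : KV (HH F 0) (-7 * a - 15 * b) (3 * a + 6 * b) (-21 * c - 5 * d) (9 * c + 2 * d) =
        PP F 10 x y - PP F 11 x y :=
      kv1 F ht hp 0 11 10 11 (-1) (-7) 3 (-5) 2 (by decide) rfl rfl (by decide) (by decide)
        (by decide) (by decide) (by ring) (by ring) (by ring) (by ring)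
    have v10 : KV (HH F 1) a (a + 3 * b) (3 * c) (3 * c + d) = PP F 11 x y - PP F 9 x y :=
      kv1 F ht hp 1 6 11 9 1 1 1 0 1 (by decide) rfl rfl (by decide) (by decide) (by decide)
        (by decide) (by ring) (by ring) (by ring) (by ring)
    have v11 : KV (HH F 0) a (2 * a + 3 * b) (3 * c) (6 * c + d) =
        -(PP F 13 x y - PP F 0 x y) := by
      rw [kv_gen (H := HH F 0) hp 1 2 0 1 0 1 1 1 0 1 (by decide) (by decide)
        (by decide) (by decide) (by decide) (by decide) (by decide) (by ring) (by ring)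
        (by ring) (by ring)]
      exact sd13 ht hR x y
    have v12 : KV (HH F 1) (5 * (2 * a + 3 * b)) (-a) (5 * (6 * c + d)) (-(3 * c)) =
        PP F 12 x y - PP F 0 x y :=
      kv1 F ht hp 1 8 12 0 5 10 (-1) 5 0 (by decide) rfl rfl (by decide) (by decide)
        (by decide) (by decide) (by ring) (by ring) (by ring) (by ring)
    beta_reduce
    rw [v1, v2, v3, v4, v5, v6, v7, v8, v9, v10, v11, v12]
    refine ⟨?_, ?_, ?_, ?_, ?_, ?_, ?_, ?_, ?_⟩ <;> (simp only [PP]; abel)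

end Pool.Agent.Helper31.T53
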